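import Mathlib

namespace Pool.Agent.Results.MP_64ebd5_nt.Counter

/-- The `k`-th prime, with `p 1 = 2`. -/
noncomputable def p (k : ℕ) : ℕ := Nat.nth Nat.Prime (k - 1)

/-- `n` is pseudoperfect and no proper divisor of `n` is. -/
def PrimitivePseudoperfect (n : ℕ) : Prop :=
  n.Pseudoperfect ∧ ∀ d ∈ n.properDivisors, ¬ d.Pseudoperfect

/-- The least `j ≥ k` with `σ(p_k ⋯ p_j) ≥ 2 p_k ⋯ p_j`. -/
noncomputable def f (k : ℕ) : ℕ :=
  sInf {j : ℕ | k ≤ j ∧
    2 * ∏ l ∈ Finset.Icc k j, p l ≤ ArithmeticFunction.sigma 1 (∏ l ∈ Finset.Icc k j, p l)}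

noncomputable def A (k : ℕ) : ℕ := ∏ l ∈ Finset.Icc k (f k), p l

noncomputable def B (k : ℕ) : ℕ := A k / p (f k) * p (f k + 1) * p (f k + 2)

theorem p2 : p 2 = 3 := Nat.nth_prime_one_eq_three
theorem p3 : p 3 = 5 := Nat.nth_prime_two_eq_five
theorem p4 : p 4 = 7 := Nat.nth_prime_three_eq_seven
theorem p5 : p 5 = 11 := Nat.nth_prime_four_eq_eleven
theorem p6 : p 6 = 13 := by
  have h := Nat.nth_count (p := Nat.Prime) (n := 13) (by norm_num)
  have e : Nat.count Nat.Prime 13 = 5 := by decide +kernel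
  rw [e] at h; exact h
theorem p7 : p 7 = 17 := by
  have h := Nat.nth_count (p := Nat.Prime) (n := 17) (by norm_num)
  have e : Nat.count Nat.Prime 17 = 6 := by decide +kernel
  rw [e] at h; exact h
theorem p8 : p 8 = 19 := by
  have h := Nat.nth_count (p := Nat.Prime) (n := 19) (by norm_num)
  have e : Nat.count Nat.Prime 19 = 7 := by decide +kernel
  rw [e] at h; exact h

theorem q2 : ∏ l ∈ Finset.Icc 2 2, p l = 3 := by simp [p2]
theorem q3 : ∏ l ∈ Finset.Icc 2 3, p l = 15 := by
  rw [Finset.prod_Icc_succ_top (by norm_num), q2, p3] <;> norm_num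
theorem q4 : ∏ l ∈ Finset.Icc 2 4, p l = 105 := by
  rw [Finset.prod_Icc_succ_top (by norm_num), q3, p4] <;> norm_num
theorem q5 : ∏ l ∈ Finset.Icc 2 5, p l = 1155 := by
  rw [Finset.prod_Icc_succ_top (by norm_num), q4, p5] <;> norm_num
theorem q6 : ∏ l ∈ Finset.Icc 2 6, p l = 15015 := by
  rw [Finset.prod_Icc_succ_top (by norm_num), q5, p6] <;> norm_num

theorem f2 : f 2 = 6 := by
  unfold f
  apply IsLeast.csInf_eq
  constructor
  · refine ⟨by norm_num, ?_⟩
    rw [q6, ArithmeticFunction.sigma_one_apply]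
    decide +kernel
  · rintro j ⟨h1, h2⟩
    by_contra h
    push Not at h
    interval_cases j
    · rw [q2, ArithmeticFunction.sigma_one_apply] at h2; revert h2; decide +kernel
    · rw [q3, ArithmeticFunction.sigma_one_apply] at h2; revert h2; decide +kernel
    · rw [q4, ArithmeticFunction.sigma_one_apply] at h2; revert h2; decide +kernel
    · rw [q5, ArithmeticFunction.sigma_one_apply] at h2; revert h2; decide +kernel

theorem B2 : B 2 = 373065 := by
  unfold B A
  rw [f2, q6, p6, p7, p8] <;> norm_num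

theorem result : ¬ (∀ k : ℕ, 2 ≤ k →
    PrimitivePseudoperfect (A k) ∧ PrimitivePseudoperfect (B k)) := by
  intro h
  have h2 := (h 2 le_rfl).2.2 19635 (by rw [B2, Nat.mem_properDivisors]; norm_num)
  apply h2
  refine ⟨by norm_num, {6545, 3927, 2805, 1309, 1155, 935, 595, 561, 357, 255, 231, 187, 165, 119,
    105, 85, 77, 55, 51, 35, 33, 17, 15, 7, 5, 3, 1}, ?_, by decide +kernel⟩
  intro x hx
  rw [Nat.mem_properDivisors]
  simp only [Finset.mem_insert, Finset.mem_singleton] at hx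
  rcases hx with h | h | h | h | h | h | h | h | h | h | h | h | h | h | h | h | h | h | h | h | h |
    h | h | h | h | h | h <;> subst h <;> norm_num

end Pool.Agent.Results.MP_64ebd5_nt.Counter
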